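import Pool.Agent.Q78.SAL.Constr

/-!
# A continuously differentiable interval map with a special alpha-limit set that is not closed

`Q78.SAL.sAlpha f x` is the special `α`-limit set of the question: all limits of subsequences of
backward orbit branches of `x` inside `[0,1]`.
-/

namespace Pool.Agent.Results.MP_0765f6_an.SmoothNotClosed

open Set Q78.SAL

/-- Q1, negative answer: there are a function `f` of class `C¹` on the whole line with
`f([0,1]) ⊆ [0,1]` and a point `x ∈ [0,1]` whose special `α`-limit set is not closed. -/
theorem result :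
    ∃ f : ℝ → ℝ, ContDiff ℝ 1 f ∧ MapsTo f (Icc 0 1) (Icc 0 1) ∧
      ∃ x ∈ Icc (0 : ℝ) 1, ¬ IsClosed (sAlpha f x) :=
  Q78.SAL.main

end Pool.Agent.Results.MP_0765f6_an.SmoothNotClosed
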